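import Pool.Agent.Helper79.SA.NGoals
import Pool.Agent.Helper46.NU.DfnT
import Pool.Agent.Helper13.NU.SYN

/-! # MP_4137ca_lc: packet SYN -/

noncomputable section

namespace SA.PkSYN

open Pool.Agent.Helper97.Ku NU SA

theorem hit : Dfn (fun _ E w => HitE E (w 2) (w 8) (w 5) (w 6))
    (fun _ _ w => hitV (w 2) (w 8) (w 5) (w 6)) :=
  Dfn.congr (Dfn.ex 9 (Dfn.ex 10 (Dfn.ex 11
    (Dfn.and (Dfn.pr 11 9 10 12 13 (by decide) (by decide) (by decide) (by decide) (by decide)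
      (by decide))
    (Dfn.and (Dfn.mem 11 2) (Dfn.and (Dfn.lst 9 8 12 (by decide) (by decide))
    (Dfn.and (Dfn.lst 10 8 12 (by decide) (by decide))
    (Dfn.and (Dfn.agb 8 9 5 12 (by decide) (by decide) (by decide))
      (Dfn.agb 8 10 6 12 (by decide) (by decide) (by decide))))))))))
    (fun N E w => by simp [HitE])
    (fun L _ w => by simp [hitV])

theorem ing : Dfn (fun _ E w => InG E (w 0) (w 2) (w 5) (w 6))
    (fun _ _ w => inGV (w 0) (w 2) (w 5) (w 6)) :=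
  Dfn.congr (Dfn.all 7 (Dfn.imp (Dfn.mem 7 0) (Dfn.ex 8 (Dfn.and (Dfn.mem 8 0)
    (Dfn.and (Dfn.mem 7 8) hit)))))
    (fun N E w => by simp [InG])
    (fun L _ w => by simp [inGV])

theorem isan : Dfn (fun _ E w => IsAn E (w 0) (w 2) (w 3))
    (fun _ _ w => isAnV (w 0) (w 2) (w 3)) :=
  Dfn.congr (Dfn.all 5 (Dfn.iff (Dfn.mem 5 3) (Dfn.and (Dfn.sub 5 0 7 (by decide) (by decide))
    (Dfn.ex 6 (Dfn.and (Dfn.sub 6 0 7 (by decide) (by decide)) ing)))))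
    (fun N E w => by simp [IsAn])
    (fun L _ w => by simp [isAnV])

theorem iscpl : Dfn (fun _ E w => IsCpl E (w 0) (w 5) (w 6))
    (fun _ _ w => isCplV (w 0) (w 5) (w 6)) :=
  Dfn.congr (Dfn.all 7 (Dfn.iff (Dfn.mem 7 6) (Dfn.and (Dfn.sub 7 0 8 (by decide) (by decide))
    (Dfn.neg (Dfn.mem 7 5)))))
    (fun N E w => by simp [IsCpl])
    (fun L _ w => by simp [isCplV])

theorem issq : Dfn (fun _ E w => IsSq E (w 0) (w 4) (w 5))
    (fun _ _ w => isSqV (w 0) (w 4) (w 5)) :=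
  Dfn.congr (Dfn.all 6 (Dfn.imp (Dfn.mem 6 0) (Dfn.ex 7 (Dfn.and (Dfn.mem 7 4)
    (Dfn.all 8 (Dfn.iff (Dfn.ap 5 6 8 9 10 11 (by decide) (by decide) (by decide) (by decide)
      (by decide) (by decide) (by decide) (by decide) (by decide) (by decide)) (Dfn.eq 8 7)))))))
    (fun N E w => by simp [IsSq])
    (fun L _ w => by simp [isSqV])

theorem isun : Dfn (fun _ E w => IsUn E (w 0) (w 5) (w 6))
    (fun _ _ w => isUnV (w 0) (w 5) (w 6)) :=
  Dfn.congr (Dfn.all 7 (Dfn.iff (Dfn.mem 7 6) (Dfn.ex 8 (Dfn.and (Dfn.mem 8 0)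
    (Dfn.ex 9 (Dfn.and (Dfn.ap 5 8 9 10 11 12 (by decide) (by decide) (by decide) (by decide)
      (by decide) (by decide) (by decide) (by decide) (by decide) (by decide))
      (Dfn.mem 7 9)))))))
    (fun N E w => by simp [IsUn])
    (fun L _ w => by simp [isUnV])

theorem salg : Dfn (fun _ E w => SAlg E (w 0) (w 4)) (fun _ _ w => sAlgV (w 0) (w 4)) :=
  Dfn.congr (Dfn.and (Dfn.all 5 (Dfn.imp (Dfn.mem 5 4) (Dfn.all 6 (Dfn.imp (Dfn.mem 6 5)
      (Dfn.sub 6 0 7 (by decide) (by decide))))))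
    (Dfn.and (Dfn.all 5 (Dfn.imp (Dfn.mem 5 4) (Dfn.ex 6 (Dfn.and (Dfn.mem 6 4) iscpl))))
    (Dfn.all 5 (Dfn.imp issq (Dfn.ex 6 (Dfn.and (Dfn.mem 6 4) isun))))))
    (fun N E w => by
      simp
      exact ⟨fun h => ⟨h.1, h.2.1, h.2.2⟩, fun h => ⟨h.1, h.2, h.3⟩⟩)
    (fun L _ w => by simp [sAlgV])

theorem allsec : Dfn (fun _ E w => ∀ n, E n (w 0) → ∃ Z, E Z (w 4) ∧ IsSec E (w 0) (w 1) n Z)
    (fun _ _ w => allSecV (w 0) (w 1) (w 4)) :=
  Dfn.congr (Dfn.all 5 (Dfn.imp (Dfn.mem 5 0) (Dfn.ex 6 (Dfn.and (Dfn.mem 6 4)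
    (Dfn.all 7 (Dfn.iff (Dfn.mem 7 6) (Dfn.and (Dfn.sub 7 0 8 (by decide) (by decide))
      (Dfn.ap 1 5 7 8 9 10 (by decide) (by decide) (by decide) (by decide)
      (by decide) (by decide) (by decide) (by decide) (by decide) (by decide)))))))))
    (fun N E w => by simp [IsSec])
    (fun L _ w => by simp [allSecV, isSecV])

theorem syn : N_SYN :=
  Dfn.congr (Dfn.ex 0 (Dfn.and NU.PkSYN.omD (Dfn.all 1 (Dfn.ex 2 (Dfn.ex 3 (Dfn.ex 4
    (Dfn.and isan (Dfn.and salg (Dfn.and allsec (Dfn.neg (Dfn.mem 3 4)))))))))))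
    (fun N E w => by simp [NoGen])
    (fun L _ w => by simp [noGenV])

end SA.PkSYN
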